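import Mathlib

/-!
# Derivations of field extensions in characteristic zero
-/

set_option linter.unusedSectionVars false

namespace Pool.Agent.W516.DR

open TensorProduct

noncomputable section

open scoped IntermediateField.algebraAdjoinAdjoin in
/-- A transcendental element is not killed by all derivations. -/
theorem exists_derivation {K L : Type*} [Field K] [Field L] [CharZero K] [Algebra K L] {x : L}
    (hx : Transcendental K x) : ∃ D : Derivation K L L, D x ≠ 0 := by
  classical
  have h1 : AlgebraicIndepOn K id ({x} : Set L) := by
    have h2 := (algebraicIndependent_unique_type_iff (R := K) (ι := ({x} : Set L))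
      (x := ((↑) : ({x} : Set L) → L))).2 (by
        have h3 : ((default : ({x} : Set L)) : L) = x := (default : ({x} : Set L)).2
        rw [h3]
        exact hx)
    exact h2
  obtain ⟨B, hB, hb⟩ := exists_isTranscendenceBasis_superset h1
  have hxB : x ∈ B := hB rfl
  let v : B → L := fun b => (b : L)
  let b₀ : B := ⟨x, hxB⟩
  have halg := hb.isAlgebraic_field
  let A := Algebra.adjoin K (Set.range v)
  let F := IntermediateField.adjoin K (Set.range v)
  have hAF : Algebra.FormallyEtale A F := .of_isLocalization (nonZeroDivisors _)
  have hFL : Algebra.FormallyEtale F L := Algebra.FormallyEtale.of_isSeparable _ L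
  have hAL : Algebra.FormallyEtale A L := .comp A F L
  let eqv : MvPolynomial B K ≃ₐ[K] A := hb.1.aevalEquiv
  let D₀ : Derivation K A L :=
    { toFun := fun a => algebraMap A L (eqv (MvPolynomial.pderiv b₀ (eqv.symm a)))
      map_add' := fun a b => by simp only [map_add]
      map_smul' := fun c a => by
        rw [map_smul, Derivation.map_smul, map_smul]
        rfl
      map_one_eq_zero' := by simp
      leibniz' := fun a b => by
        simp only [map_mul, Derivation.leibniz, map_add, smul_eq_mul, AlgEquiv.apply_symm_apply,
          LinearMap.coe_mk, AddHom.coe_mk]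
        rw [Algebra.smul_def, Algebra.smul_def] }
  let lin : Ω[L⁄K] →ₗ[L] L := (LinearMap.liftBaseChange L D₀.liftKaehlerDifferential) ∘ₗ
    (KaehlerDifferential.tensorKaehlerEquivOfFormallyEtale K A L).symm.toLinearMap
  refine ⟨lin.compDer (KaehlerDifferential.D K L), ?_⟩
  have hxA : x ∈ A := Algebra.subset_adjoin ⟨b₀, rfl⟩
  have h2 : eqv.symm ⟨x, hxA⟩ = MvPolynomial.X b₀ := by
    rw [AlgEquiv.symm_apply_eq]
    apply Subtype.ext
    change x = ((hb.1.aevalEquiv (MvPolynomial.X b₀) : A) : L)
    rw [AlgebraicIndependent.aevalEquiv_apply_coe, MvPolynomial.aeval_X]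
  have h3 : lin.compDer (KaehlerDifferential.D K L) x = 1 := by
    change lin (KaehlerDifferential.D K L (algebraMap A L ⟨x, hxA⟩)) = 1
    change (LinearMap.liftBaseChange L D₀.liftKaehlerDifferential)
      ((KaehlerDifferential.tensorKaehlerEquivOfFormallyEtale K A L).symm
        (KaehlerDifferential.D K L (algebraMap A L ⟨x, hxA⟩))) = 1
    rw [KaehlerDifferential.tensorKaehlerEquivOfFormallyEtale_symm_D_algebraMap,
      LinearMap.liftBaseChange_tmul, one_smul, Derivation.liftKaehlerDifferential_comp_D]
    change algebraMap A L (eqv (MvPolynomial.pderiv b₀ (eqv.symm ⟨x, hxA⟩))) = 1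
    rw [h2, MvPolynomial.pderiv_X_self, map_one, map_one]
  rw [h3]
  exact one_ne_zero

/-- The constants of all derivations over an algebraically closed subfield. -/
theorem mem_of_derivation {K L : Type*} [Field K] [Field L] [CharZero K] [IsAlgClosed K]
    [Algebra K L] {x : L} (hx : ∀ D : Derivation K L L, D x = 0) :
    ∃ a : K, algebraMap K L a = x := by
  by_cases h : Transcendental K x
  · obtain ⟨D, hD⟩ := exists_derivation h
    exact absurd (hx D) hD
  · have h1 : IsAlgebraic K x := by
      rw [Transcendental, not_not] at h
      exact h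
    have h2 := IsAlgClosed.degree_eq_one_of_irreducible K (minpoly.irreducible h1.isIntegral)
    exact minpoly.mem_range_of_degree_eq_one K x h2

end

end Pool.Agent.W516.DR
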