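import Mathlib
import Pool.Agent.H86.CMLib.W516.DRDeriv
import Pool.Agent.H86.CMLib.H204R3.SP.Descent
import Pool.Agent.H86.CMLib.H204R3.GP.TateG

/-!
# Logarithmic derivatives of the periods
-/

set_option linter.unusedSectionVars false

namespace Pool.Agent.W516.DR

open Module TensorProduct Pool.Agent.H204R3.SP Pool.Agent.H204R3.GP

noncomputable section

variable {k K L : Type*} [Field k] [Field K] [Field L] [CharZero K] [Algebra k K] [Algebra k L]
  [Algebra K L] [IsScalarTower k K L]
  {W : Type*} [AddCommGroup W] [Module k W] [FiniteDimensional k W]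
  {ι : Type*} [Fintype ι] [DecidableEq ι] (η : Basis ι L (W →ₗ[k] L))

/-- The functionals on `L ⊗ W`. -/
def etaL : Basis ι L (Dual L (L ⊗[k] W)) := η.map (LinearMap.liftBaseChangeEquiv L)

theorem etaL_tmul (i : ι) (a : L) (w : W) : etaL η i (a ⊗ₜ[k] w) = a * η i w := by
  unfold etaL
  rw [Basis.map_apply]
  exact LinearMap.liftBaseChange_tmul _ _ _ _

/-- The dual basis. -/
def ee : Basis ι L (L ⊗[k] W) := (etaL η).dualBasis.map (Module.evalEquiv L (L ⊗[k] W)).symm

theorem etaL_ee (i j : ι) : etaL η i (ee η j) = if j = i then 1 else 0 := by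
  have h1 : Module.evalEquiv L (L ⊗[k] W) (ee η j) = (etaL η).dualBasis j := by
    unfold ee
    rw [Basis.map_apply, LinearEquiv.apply_symm_apply]
  have h2 := congrArg (fun f : Dual L (Dual L (L ⊗[k] W)) => f (etaL η i)) h1
  rw [Module.evalEquiv_apply] at h2
  rw [← Module.Dual.eval_apply L (L ⊗[k] W), h2, Basis.dualBasis_apply_self]
  simp only [eq_comm]

theorem ee_repr (z : L ⊗[k] W) (i : ι) : (ee η).repr z i = etaL η i z := by
  conv_rhs => rw [← (ee η).sum_repr z]
  rw [map_sum, Finset.sum_eq_single i]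
  · rw [map_smul, etaL_ee, if_pos rfl, smul_eq_mul, mul_one]
  · intro j _ hj
    rw [map_smul, etaL_ee, if_neg hj, smul_zero]
  · intro h
    exact absurd (Finset.mem_univ _) h

theorem sum_ee (z : L ⊗[k] W) : ∑ i, etaL η i z • ee η i = z := by
  conv_rhs => rw [← (ee η).sum_repr z]
  exact Finset.sum_congr rfl fun i _ => by rw [ee_repr]

/-- A derivation over `K` as a `k`-linear map. -/
def dk (D : Derivation K L L) : L →ₗ[k] L where
  toFun := D
  map_add' := map_add D
  map_smul' c x := by
    rw [← IsScalarTower.algebraMap_smul K c x, Derivation.map_smul,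
      IsScalarTower.algebraMap_smul]
    rfl

theorem dk_apply (D : Derivation K L L) (x : L) : dk (k := k) D x = D x := rfl

theorem der_k (D : Derivation K L L) (c : k) : D (algebraMap k L c) = 0 := by
  rw [IsScalarTower.algebraMap_apply k K L, Derivation.map_algebraMap]

/-- The action of the derivation on `L ⊗ W` which kills `W`. -/
def dW (D : Derivation K L L) : L ⊗[k] W →ₗ[k] L ⊗[k] W := LinearMap.rTensor W (dk D)

theorem dW_tmul (D : Derivation K L L) (a : L) (w : W) :
    dW D (a ⊗ₜ[k] w) = D a ⊗ₜ[k] w := rfl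

theorem dW_one (D : Derivation K L L) (w : W) : dW D ((1 : L) ⊗ₜ[k] w) = 0 := by
  rw [dW_tmul, Derivation.map_one_eq_zero, zero_tmul]

theorem dW_smul (D : Derivation K L L) (a : L) (z : L ⊗[k] W) :
    dW D (a • z) = D a • z + a • dW D z := by
  induction z with
  | zero => simp only [smul_zero, map_zero, add_zero]
  | add z z' h h' =>
    rw [smul_add, map_add, h, h', map_add, smul_add, smul_add]
    abel
  | tmul c w =>
    rw [smul_tmul', dW_tmul, dW_tmul, smul_tmul', smul_tmul', smul_eq_mul, smul_eq_mul, smul_eq_mul,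
      Derivation.leibniz, smul_eq_mul, smul_eq_mul, add_tmul, add_comm, mul_comm c]

/-- The logarithmic derivative of the period matrix. -/
def XX (D : Derivation K L L) : Module.End L (L ⊗[k] W) :=
  (ee η).constr L (fun j => -dW D (ee η j))

theorem XX_ee (D : Derivation K L L) (j : ι) : XX η D (ee η j) = -dW D (ee η j) := by
  unfold XX
  rw [Basis.constr_basis]

/-- The functionals of the de Rham basis on `X z`. -/
theorem XX_eq (D : Derivation K L L) (z : L ⊗[k] W) :
    XX η D z + dW D z = ∑ i, D (etaL η i z) • ee η i := by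
  conv_lhs => rw [← sum_ee η z]
  rw [map_sum, map_sum, ← Finset.sum_add_distrib]
  refine Finset.sum_congr rfl fun i _ => ?_
  rw [map_smul, XX_ee, dW_smul, smul_neg]
  abel

theorem etaL_XX (D : Derivation K L L) (z : L ⊗[k] W) (i : ι) :
    etaL η i (XX η D z) + etaL η i (dW D z) = D (etaL η i z) := by
  rw [← map_add, XX_eq, map_sum, Finset.sum_eq_single i]
  · rw [map_smul, etaL_ee, if_pos rfl, smul_eq_mul, mul_one]
  · intro j _ hj
    rw [map_smul, etaL_ee, if_neg hj, smul_zero]
  · intro h
    exact absurd (Finset.mem_univ _) h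

theorem etaL_XX_one (D : Derivation K L L) (w : W) (i : ι) :
    etaL η i (XX η D ((1 : L) ⊗ₜ[k] w)) = D (η i w) := by
  have h1 := etaL_XX η D ((1 : L) ⊗ₜ[k] w) i
  rwa [dW_one, map_zero, add_zero, etaL_tmul, one_mul] at h1

/-! ### Rational components -/

/-- The component of an element of `L ⊗ W`. -/
def cmp (lam : L →ₗ[k] k) : L ⊗[k] W →ₗ[k] W :=
  (TensorProduct.lid k W).toLinearMap ∘ₗ LinearMap.rTensor W lam

theorem cmp_tmul (lam : L →ₗ[k] k) (a : L) (w : W) : cmp lam (a ⊗ₜ[k] w) = lam a • w := rfl

/-- The rational component of an endomorphism of `L ⊗ W`. -/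
def cmpE (lam : L →ₗ[k] k) (Y : Module.End L (L ⊗[k] W)) : Module.End k W :=
  cmp lam ∘ₗ (Y.restrictScalars k) ∘ₗ (TensorProduct.mk k L W 1)

theorem cmpE_apply (lam : L →ₗ[k] k) (Y : Module.End L (L ⊗[k] W)) (w : W) :
    cmpE lam Y w = cmp lam (Y ((1 : L) ⊗ₜ[k] w)) := rfl

theorem eq_zero_of_dual {x : L} (h : ∀ lam : L →ₗ[k] k, lam x = 0) : x = 0 :=
  (Module.forall_dual_apply_eq_zero_iff k x).1 h

/-- An element all of whose components vanish is zero. -/
theorem eq_zero_of_cmp {z : L ⊗[k] W} (h : ∀ lam : L →ₗ[k] k, cmp lam z = 0) : z = 0 := by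
  classical
  let b := Module.finBasis k W
  rw [← LinearEquiv.map_eq_zero_iff (b.baseChange L).repr]
  ext i
  rw [Finsupp.zero_apply]
  apply eq_zero_of_dual (k := k)
  intro lam
  have h1 : ∀ z : L ⊗[k] W, lam ((b.baseChange L).repr z i) = b.repr (cmp lam z) i := by
    intro z
    induction z with
    | zero => simp only [map_zero, Finsupp.zero_apply]
    | add z z' h h' => simp only [map_add, Finsupp.add_apply, h, h']
    | tmul a w =>
      rw [Basis.baseChange_repr_tmul, cmp_tmul, map_smul, map_smul, Finsupp.smul_apply,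
        smul_eq_mul, smul_eq_mul, mul_comm]
  rw [h1, h, map_zero, Finsupp.zero_apply]

variable {ν : Type*} [Fintype ν] [DecidableEq ν] (b : Basis ν k W)

theorem bcm_tmul {κ : Type*} [Fintype κ] [DecidableEq κ]
    (φ : MultilinearMap k (fun _ : κ => W) k) (a : κ → L) (w : κ → W) :
    bcm (Ω := L) b φ (fun l => a l ⊗ₜ[k] w l) = (∏ l, a l) * algebraMap k L (φ w) := by
  have h1 : (fun l => a l ⊗ₜ[k] w l) = fun l => a l • ((1 : L) ⊗ₜ[k] w l) := by
    funext l
    rw [smul_tmul', smul_eq_mul, mul_one]
  rw [h1, MultilinearMap.map_smul_univ, bcm_one, smul_eq_mul]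

/-- The component of a value. -/
theorem cmp_bcm {κ : Type*} [Fintype κ] [DecidableEq κ]
    (φ : MultilinearMap k (fun _ : κ => W) k) (lam : L →ₗ[k] k) (w : κ → W) (j : κ)
    (z : L ⊗[k] W) :
    lam (bcm (Ω := L) b φ (Function.update (fun l => (1 : L) ⊗ₜ[k] w l) j z)) =
      φ (Function.update w j (cmp lam z)) := by
  induction z with
  | zero =>
    rw [map_zero, (bcm (Ω := L) b φ).map_coord_zero j (Function.update_self _ _ _),
      φ.map_coord_zero j (Function.update_self _ _ _), map_zero]
  | add z z' h h' =>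
    rw [MultilinearMap.map_update_add, map_add, h, h', map_add, MultilinearMap.map_update_add]
  | tmul a u =>
    have h1 : Function.update (fun l => (1 : L) ⊗ₜ[k] w l) j (a ⊗ₜ[k] u) =
        fun l => (Function.update (fun _ => (1 : L)) j a l) ⊗ₜ[k] (Function.update w j u l) := by
      funext l
      by_cases hl : l = j
      · subst hl
        rw [Function.update_self, Function.update_self, Function.update_self]
      · rw [Function.update_of_ne hl, Function.update_of_ne hl, Function.update_of_ne hl]
    rw [h1, bcm_tmul, Finset.prod_update_of_mem (Finset.mem_univ j), Finset.prod_const_one, mul_one,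
      cmp_tmul, MultilinearMap.map_update_smul, mul_comm, ← Algebra.smul_def, map_smul, smul_eq_mul,
      smul_eq_mul, mul_comm]

/-- An endomorphism of `L ⊗ W` kills a rational form if and only if its components do. -/
theorem kills_bcm_iff {κ : Type*} [Fintype κ] [DecidableEq κ]
    (φ : MultilinearMap k (fun _ : κ => W) k) (Y : Module.End L (L ⊗[k] W)) [CharZero L] :
    Kills Y (bcm (Ω := L) b φ) ↔ ∀ lam : L →ₗ[k] k, Kills (cmpE lam Y) φ := by
  have key : ∀ (lam : L →ₗ[k] k) (w : κ → W),
      lam (∑ j, bcm (Ω := L) b φ (Function.update (fun l => (1 : L) ⊗ₜ[k] w l) j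
        (Y ((1 : L) ⊗ₜ[k] w j)))) = ∑ j, φ (Function.update w j (cmpE lam Y (w j))) := by
    intro lam w
    rw [map_sum]
    exact Finset.sum_congr rfl fun j _ => by rw [cmp_bcm, cmpE_apply]
  constructor
  · intro h lam w
    rw [← key, h (fun l => (1 : L) ⊗ₜ[k] w l), map_zero]
  · intro h
    refine kills_of_basis (b.baseChange L) _ _ fun I => ?_
    apply eq_zero_of_dual (k := k)
    intro lam
    have h1 : (fun l => b.baseChange L (I l)) = fun l => (1 : L) ⊗ₜ[k] b (I l) := by
      funext l
      rw [Basis.baseChange_apply]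
    have h2 := key lam (fun l => b (I l))
    rw [← h1] at h2
    simp only [← Basis.baseChange_apply] at h2
    rw [h2]
    exact h lam _

/-! ### The derivative of the values of a rational form -/

theorem der_prod (D : Derivation K L L) {κ : Type*} [DecidableEq κ] (s : Finset κ) (a : κ → L) :
    D (∏ l ∈ s, a l) = ∑ j ∈ s, D (a j) * ∏ l ∈ s.erase j, a l := by
  classical
  induction s using Finset.induction_on with
  | empty => simp
  | insert i s hi ih =>
    rw [Finset.prod_insert hi, Derivation.leibniz, ih, Finset.sum_insert hi, smul_eq_mul,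
      smul_eq_mul, Finset.erase_insert hi, add_comm, mul_comm (∏ l ∈ s, a l), Finset.mul_sum]
    congr 1
    refine Finset.sum_congr rfl fun j hj => ?_
    have hij : i ≠ j := fun h => hi (h ▸ hj)
    rw [Finset.erase_insert_of_ne hij, Finset.prod_insert (fun h => hi (Finset.mem_of_mem_erase h))]
    ring

theorem der_bcm (D : Derivation K L L) {κ : Type*} [Fintype κ] [DecidableEq κ]
    (φ : MultilinearMap k (fun _ : κ => W) k) (z : κ → L ⊗[k] W) :
    D (bcm (Ω := L) b φ z) = ∑ j, bcm (Ω := L) b φ (Function.update z j (dW D (z j))) := by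
  classical
  let Φ : MultilinearMap k (fun _ : κ => L ⊗[k] W) L := (bcm (Ω := L) b φ).restrictScalars k
  let A : MultilinearMap k (fun _ : κ => L ⊗[k] W) L := (dk (k := k) D).compMultilinearMap Φ
  let B : MultilinearMap k (fun _ : κ => L ⊗[k] W) L :=
    ∑ j, Φ.compLinearMap (fun l => if l = j then dW D else LinearMap.id)
  have hB : ∀ z, B z = ∑ j, bcm (Ω := L) b φ (Function.update z j (dW D (z j))) := by
    intro z
    change (∑ j, Φ.compLinearMap (fun l => if l = j then dW D else LinearMap.id)) z = _
    rw [sum_apply]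
    refine Finset.sum_congr rfl fun j _ => ?_
    rw [MultilinearMap.compLinearMap_apply]
    change bcm (Ω := L) b φ _ = _
    congr 1
    funext l
    by_cases hl : l = j
    · subst hl
      rw [Function.update_self, if_pos rfl]
    · rw [Function.update_of_ne hl, if_neg hl]
      rfl
  have h : A = B := by
    refine Basis.ext_multilinear (fun _ => (Basis.ofVectorSpace k L).tensorProduct b) fun I => ?_
    have h1 : (fun l => ((Basis.ofVectorSpace k L).tensorProduct b) (I l)) =
        fun l => (Basis.ofVectorSpace k L (I l).1) ⊗ₜ[k] b (I l).2 := by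
      funext l
      rw [Basis.tensorProduct_apply]
    rw [h1, hB]
    change D (bcm (Ω := L) b φ _) = _
    rw [bcm_tmul, mul_comm, Derivation.leibniz, der_k, smul_zero, add_zero, der_prod, smul_eq_mul,
      Finset.mul_sum]
    refine Finset.sum_congr rfl fun j _ => ?_
    have h2 : Function.update (fun l => (Basis.ofVectorSpace k L (I l).1) ⊗ₜ[k] b (I l).2) j
        (dW D ((Basis.ofVectorSpace k L (I j).1) ⊗ₜ[k] b (I j).2)) =
        fun l => (Function.update (fun l => Basis.ofVectorSpace k L (I l).1) j
          (D (Basis.ofVectorSpace k L (I j).1)) l) ⊗ₜ[k] b (I l).2 := by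
      funext l
      by_cases hl : l = j
      · subst hl
        rw [Function.update_self, Function.update_self, dW_tmul]
      · rw [Function.update_of_ne hl, Function.update_of_ne hl]
    rw [h2, bcm_tmul, Finset.prod_update_of_mem (Finset.mem_univ j), mul_comm]
    rw [Finset.sdiff_singleton_eq_erase]
  have h1 := congrArg (fun F : MultilinearMap k (fun _ : κ => L ⊗[k] W) L => F z) h
  rw [← hB]
  exact h1

/-- The coefficients of a rational form with respect to the de Rham basis. -/
theorem coef_expand {κ : Type*} [Fintype κ] [DecidableEq κ]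
    (φ : MultilinearMap k (fun _ : κ => W) k) (v : κ → W) :
    algebraMap k L (φ v) =
      ∑ J : κ → ι, bcm (Ω := L) b φ (fun l => ee η (J l)) * ∏ l, η (J l) (v l) := by
  classical
  rw [← bcm_one (Ω := L) b φ v]
  have h1 : (fun l => (1 : L) ⊗ₜ[k] v l) = fun l => ∑ i, η i (v l) • ee η i := by
    funext l
    conv_lhs => rw [← sum_ee η ((1 : L) ⊗ₜ[k] v l)]
    refine Finset.sum_congr rfl fun i _ => ?_
    rw [etaL_tmul, one_mul]
  rw [h1, MultilinearMap.map_sum]
  refine Finset.sum_congr rfl fun J _ => ?_
  rw [MultilinearMap.map_smul_univ, smul_eq_mul, mul_comm]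

/-- Uniqueness of the coefficients. -/
theorem coef_unique {κ : Type*} [Fintype κ] [DecidableEq κ]
    (φ : MultilinearMap k (fun _ : κ => W) k) (t : L) (a : (κ → ι) → L)
    (h : ∀ v : κ → W, t * algebraMap k L (φ v) = ∑ J, a J * ∏ l, η (J l) (v l)) (J : κ → ι) :
    t * bcm (Ω := L) b φ (fun l => ee η (J l)) = a J := by
  classical
  let G : MultilinearMap L (fun _ : κ => L ⊗[k] W) L :=
    ∑ J : κ → ι, a J • (MultilinearMap.mkPiAlgebra L κ L).compLinearMap (fun l => etaL η (J l))
  have hG : ∀ z, G z = ∑ J : κ → ι, a J * ∏ l, etaL η (J l) (z l) := by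
    intro z
    change (∑ J : κ → ι, a J • (MultilinearMap.mkPiAlgebra L κ L).compLinearMap
      (fun l => etaL η (J l))) z = _
    rw [sum_apply]
    refine Finset.sum_congr rfl fun J _ => ?_
    rw [MultilinearMap.smul_apply, MultilinearMap.compLinearMap_apply,
      MultilinearMap.mkPiAlgebra_apply, smul_eq_mul]
  have h1 : t • bcm (Ω := L) b φ = G := by
    refine Basis.ext_multilinear (fun _ => b.baseChange L) fun I => ?_
    rw [MultilinearMap.smul_apply, bcm_basis, hG, smul_eq_mul, h]
    refine Finset.sum_congr rfl fun J _ => ?_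
    congr 1
    refine Finset.prod_congr rfl fun l _ => ?_
    rw [Basis.baseChange_apply, etaL_tmul, one_mul]
  have h2 := congrArg (fun F : MultilinearMap L (fun _ : κ => L ⊗[k] W) L =>
    F (fun l => ee η (J l))) h1
  simp only [MultilinearMap.smul_apply, smul_eq_mul] at h2
  rw [h2, hG, Finset.sum_eq_single J]
  · rw [Finset.prod_eq_one fun l _ => ?_, mul_one]
    rw [etaL_ee, if_pos rfl]
  · intro J' _ hJ'
    obtain ⟨l, hl⟩ := Function.ne_iff.1 hJ'
    rw [Finset.prod_eq_zero (Finset.mem_univ l), mul_zero]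
    rw [etaL_ee, if_neg (fun h => hl h.symm)]
  · intro h
    exact absurd (Finset.mem_univ _) h

end

end Pool.Agent.W516.DR
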