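import Mathlib
import Pool.Agent.H86.CMLib.W516.DRComm

/-!
# Extension of the coefficients
-/

set_option linter.unusedSectionVars false

namespace Pool.Agent.W516.DR

open Module TensorProduct Pool.Agent.H204R3.SP Pool.Agent.H204R3.GP Pool.Agent.W516.KC

noncomputable section

variable {F k : Type*} [Field F] [Field k] [CharZero F] [CharZero k] [Algebra F k]
  {W : Type*} [AddCommGroup W] [Module F W] [FiniteDimensional F W]
  {κ : Type*} [Fintype κ] [DecidableEq κ]

/-- The component of a form. -/
def fcmp (lam : k →ₗ[F] F) (φ : MultilinearMap k (fun _ : κ => k ⊗[F] W) k) :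
    MultilinearMap F (fun _ : κ => W) F :=
  lam.compMultilinearMap ((φ.restrictScalars F).compLinearMap
    (fun _ => TensorProduct.mk F k W 1))

theorem fcmp_apply (lam : k →ₗ[F] F) (φ : MultilinearMap k (fun _ : κ => k ⊗[F] W) k)
    (v : κ → W) : fcmp lam φ v = lam (φ (fun l => (1 : k) ⊗ₜ[F] v l)) := rfl

/-- The components of a form killed by an endomorphism are killed. -/
theorem kills_fcmp (lam : k →ₗ[F] F) (φ : MultilinearMap k (fun _ : κ => k ⊗[F] W) k)
    (Z : Module.End F W) (h : Kills (Z.baseChange k) φ) : Kills Z (fcmp lam φ) := by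
  intro v
  have h1 := h (fun l => (1 : k) ⊗ₜ[F] v l)
  have h2 := congrArg lam h1
  rw [map_sum, map_zero] at h2
  rw [← h2]
  refine Finset.sum_congr rfl fun j _ => ?_
  rw [fcmp_apply]
  congr 2
  funext l
  by_cases hl : l = j
  · subst hl
    rw [Function.update_self, Function.update_self, LinearMap.baseChange_tmul]
  · rw [Function.update_of_ne hl, Function.update_of_ne hl]

/-- A form all of whose components have a property is a linear combination of extensions of
forms with this property. -/
theorem form_mem_span (S : MultilinearMap F (fun _ : κ => W) F → Prop)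
    (φ : MultilinearMap k (fun _ : κ => k ⊗[F] W) k) (h : ∀ lam : k →ₗ[F] F, S (fcmp lam φ)) :
    φ ∈ Submodule.span k {φ' : MultilinearMap k (fun _ : κ => k ⊗[F] W) k |
      ∃ ψ : MultilinearMap F (fun _ : κ => W) F, S ψ ∧
        ∀ v : κ → W, φ' (fun l => (1 : k) ⊗ₜ[F] v l) = algebraMap F k (ψ v)} := by
  classical
  let b := Module.finBasis F W
  let c := Basis.ofVectorSpace F k
  let s : Finset (Basis.ofVectorSpaceIndex F k) :=
    Finset.univ.biUnion fun I : κ → Fin (finrank F W) =>
      (c.repr (φ (fun l => b.baseChange k (I l)))).support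
  have h1 : φ = ∑ i ∈ s, c i • bcm (Ω := k) b (fcmp (c.coord i) φ) := by
    refine Basis.ext_multilinear (fun _ => b.baseChange k) fun I => ?_
    rw [sum_apply]
    conv_lhs => rw [← c.linearCombination_repr (φ (fun l => b.baseChange k (I l))),
      Finsupp.linearCombination_apply, Finsupp.sum_of_support_subset _
      (Finset.subset_biUnion_of_mem (fun I : κ → Fin (finrank F W) =>
        (c.repr (φ (fun l => b.baseChange k (I l)))).support) (Finset.mem_univ I)) _
      (fun i _ => zero_smul F (c i))]
    refine Finset.sum_congr rfl fun i _ => ?_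
    rw [smul_apply, bcm_basis, fcmp_apply]
    have h2 : (fun l => b.baseChange k (I l)) = fun l => (1 : k) ⊗ₜ[F] b (I l) := by
      funext l
      rw [Basis.baseChange_apply]
    rw [← h2, Basis.coord_apply, Algebra.smul_def, smul_eq_mul, mul_comm]
  rw [h1]
  refine Submodule.sum_mem _ fun i _ => Submodule.smul_mem _ _ (Submodule.subset_span ?_)
  exact ⟨_, h _, fun v => bcm_one b _ v⟩

/-- An endomorphism kills the extension of a form if ... -/
theorem kills_ext (φ : MultilinearMap k (fun _ : κ => k ⊗[F] W) k)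
    (ψ : MultilinearMap F (fun _ : κ => W) F)
    (h : ∀ v : κ → W, φ (fun l => (1 : k) ⊗ₜ[F] v l) = algebraMap F k (ψ v))
    (Z : Module.End F W) (hZ : Kills Z ψ) : Kills (Z.baseChange k) φ := by
  refine kills_of_basis ((Module.finBasis F W).baseChange k) _ _ fun I => ?_
  have h2 : ∀ j, Function.update (fun l => (Module.finBasis F W).baseChange k (I l)) j
      ((Z.baseChange k) ((Module.finBasis F W).baseChange k (I j))) =
      fun l => (1 : k) ⊗ₜ[F] Function.update (fun l => Module.finBasis F W (I l)) j
        (Z (Module.finBasis F W (I j))) l := by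
    intro j
    funext l
    by_cases hl : l = j
    · subst hl
      rw [Function.update_self, Function.update_self, Basis.baseChange_apply,
        LinearMap.baseChange_tmul]
    · rw [Function.update_of_ne hl, Function.update_of_ne hl, Basis.baseChange_apply]
  simp only [h2, h]
  rw [← map_sum]
  have h3 := hZ (fun l => Module.finBasis F W (I l))
  rw [h3, map_zero]

/-- The same for combinations. -/
theorem kills_span (S : MultilinearMap F (fun _ : κ => W) F → Prop)
    (Z : Module.End F W) (hZ : ∀ ψ, S ψ → Kills Z ψ)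
    (φ : MultilinearMap k (fun _ : κ => k ⊗[F] W) k)
    (h : φ ∈ Submodule.span k {φ' : MultilinearMap k (fun _ : κ => k ⊗[F] W) k |
      ∃ ψ : MultilinearMap F (fun _ : κ => W) F, S ψ ∧
        ∀ v : κ → W, φ' (fun l => (1 : k) ⊗ₜ[F] v l) = algebraMap F k (ψ v)}) :
    Kills (Z.baseChange k) φ := by
  induction h using Submodule.span_induction with
  | mem φ h =>
    obtain ⟨ψ, h1, h2⟩ := h
    exact kills_ext φ ψ h2 Z (hZ ψ h1)
  | zero =>
    intro v
    exact Finset.sum_eq_zero fun _ _ => rfl
  | add a b _ _ ha hb =>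
    intro v
    have h3 := congrArg₂ (fun x y : k => x + y) (ha v) (hb v)
    simp only [add_zero] at h3
    rw [← h3, ← Finset.sum_add_distrib]
    rfl
  | smul c a _ ha =>
    intro v
    rw [← mul_zero c, ← ha v, Finset.mul_sum]
    rfl

/-! ### Bilinear forms and endomorphisms -/

variable (ω₀ : W →ₗ[F] W →ₗ[F] F) (ω : k ⊗[F] W →ₗ[k] k ⊗[F] W →ₗ[k] k)
  (hωω : ∀ u v : W, ω ((1 : k) ⊗ₜ[F] u) ((1 : k) ⊗ₜ[F] v) = algebraMap F k (ω₀ u v))

include hωω in
theorem lam_omega (lam : k →ₗ[F] F) (z : k ⊗[F] W) (v : W) :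
    lam (ω z ((1 : k) ⊗ₜ[F] v)) = ω₀ (cmp lam z) v := by
  induction z with
  | zero => simp only [map_zero, LinearMap.zero_apply]
  | add z z' h h' => simp only [map_add, LinearMap.add_apply, h, h']
  | tmul a w =>
    have h1 : a ⊗ₜ[F] w = a • ((1 : k) ⊗ₜ[F] w) := by rw [smul_tmul', smul_eq_mul, mul_one]
    rw [cmp_tmul, h1, map_smul, LinearMap.smul_apply, hωω, smul_eq_mul, mul_comm,
      ← Algebra.smul_def, map_smul, smul_eq_mul, map_smul, LinearMap.smul_apply, smul_eq_mul,
      mul_comm]

include hωω in
theorem lam_omega' (lam : k →ₗ[F] F) (z : k ⊗[F] W) (v : W) :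
    lam (ω ((1 : k) ⊗ₜ[F] v) z) = ω₀ v (cmp lam z) := by
  induction z with
  | zero => simp only [map_zero]
  | add z z' h h' => simp only [map_add, h, h']
  | tmul a w =>
    have h1 : a ⊗ₜ[F] w = a • ((1 : k) ⊗ₜ[F] w) := by rw [smul_tmul', smul_eq_mul, mul_one]
    rw [cmp_tmul, h1, map_smul, hωω, smul_eq_mul, mul_comm,
      ← Algebra.smul_def, map_smul, smul_eq_mul, map_smul, smul_eq_mul, mul_comm]

include hωω in
theorem nondeg_ext (hnd : ∀ u, (∀ v, ω₀ u v = 0) → u = 0) (z : k ⊗[F] W)
    (hz : ∀ z', ω z z' = 0) : z = 0 := by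
  apply eq_zero_of_cmp (k := F)
  intro lam
  apply hnd
  intro v
  rw [← lam_omega ω₀ ω hωω, hz, map_zero]

/-- Two bilinear identities can be checked on `W`. -/
theorem bilin_ext (B B' : k ⊗[F] W →ₗ[k] k ⊗[F] W →ₗ[k] k)
    (h : ∀ u v : W, B ((1 : k) ⊗ₜ[F] u) ((1 : k) ⊗ₜ[F] v) =
      B' ((1 : k) ⊗ₜ[F] u) ((1 : k) ⊗ₜ[F] v)) : B = B' := by
  refine TensorProduct.AlgebraTensorModule.ext fun a u => ?_
  refine TensorProduct.AlgebraTensorModule.ext fun c v => ?_
  have h1 : a ⊗ₜ[F] u = a • ((1 : k) ⊗ₜ[F] u) := by rw [smul_tmul', smul_eq_mul, mul_one]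
  have h2 : c ⊗ₜ[F] v = c • ((1 : k) ⊗ₜ[F] v) := by rw [smul_tmul', smul_eq_mul, mul_one]
  rw [h1, h2]
  simp only [map_smul, LinearMap.smul_apply, h]

include hωω in
theorem skew_ext {Z : Module.End F W} (hZ : IsSkew ω₀ Z) : IsSkew ω (Z.baseChange k) := by
  have h1 : ω.comp (Z.baseChange k) + ω.compl₂ (Z.baseChange k) = 0 := by
    apply bilin_ext
    intro u v
    rw [LinearMap.add_apply, LinearMap.add_apply, LinearMap.comp_apply, LinearMap.compl₂_apply,
      LinearMap.baseChange_tmul, LinearMap.baseChange_tmul, hωω, hωω, ← map_add, hZ, map_zero]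
    rfl
  intro u v
  have h2 := congrArg (fun B : k ⊗[F] W →ₗ[k] k ⊗[F] W →ₗ[k] k => B u v) h1
  exact h2

include hωω in
/-- The components of a symmetric endomorphism are symmetric. -/
theorem sym_cmp {X : Module.End k (k ⊗[F] W)} (hX : ∀ u v, ω (X u) v = ω u (X v))
    (lam : k →ₗ[F] F) (u v : W) : ω₀ (cmpE lam X u) v = ω₀ u (cmpE lam X v) := by
  rw [cmpE_apply, cmpE_apply, ← lam_omega ω₀ ω hωω, ← lam_omega' ω₀ ω hωω, hX]

include hωω in
/-- If the components are symmetric then the endomorphism is symmetric. -/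
theorem sym_of_cmp {X : Module.End k (k ⊗[F] W)}
    (h : ∀ (lam : k →ₗ[F] F) (u v : W), ω₀ (cmpE lam X u) v = ω₀ u (cmpE lam X v))
    (u v : k ⊗[F] W) : ω (X u) v = ω u (X v) := by
  have h1 : ω.comp X = ω.compl₂ X := by
    apply bilin_ext
    intro u v
    rw [LinearMap.comp_apply, LinearMap.compl₂_apply, ← sub_eq_zero]
    apply eq_zero_of_dual (k := F)
    intro lam
    rw [map_sub, lam_omega ω₀ ω hωω, lam_omega' ω₀ ω hωω]
    have h2 := h lam u v
    rw [cmpE_apply, cmpE_apply] at h2
    rw [h2, sub_self]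
  exact congrArg (fun B : k ⊗[F] W →ₗ[k] k ⊗[F] W →ₗ[k] k => B u v) h1

/-- The extensions of a set of endomorphisms. -/
def extEnd (k : Type*) [Field k] [Algebra F k] (S : (W →ₗ[F] W) → Prop) :
    Submodule k (Module.End k (k ⊗[F] W)) :=
  Submodule.span k {P | ∃ P₀ : W →ₗ[F] W, S P₀ ∧ P = P₀.baseChange k}

/-- An endomorphism all of whose components have a property is a combination of extensions. -/
theorem end_mem_span (S : (W →ₗ[F] W) → Prop) (X : Module.End k (k ⊗[F] W))
    (h : ∀ lam : k →ₗ[F] F, S (cmpE lam X)) : X ∈ extEnd k S := by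
  classical
  let b := Module.finBasis F W
  let c := Basis.ofVectorSpace F k
  let s : Finset (Basis.ofVectorSpaceIndex F k) :=
    Finset.univ.biUnion fun p : Fin (finrank F W) × Fin (finrank F W) =>
      (c.repr ((b.baseChange k).repr (X (b.baseChange k p.1)) p.2)).support
  have h1 : X = ∑ i ∈ s, c i • (cmpE (c.coord i) X).baseChange k := by
    refine (b.baseChange k).ext fun p => ?_
    apply (b.baseChange k).repr.injective
    ext q
    rw [LinearMap.sum_apply, map_sum, Finsupp.finsetSum_apply]
    conv_lhs => rw [← c.linearCombination_repr ((b.baseChange k).repr (X (b.baseChange k p)) q),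
      Finsupp.linearCombination_apply, Finsupp.sum_of_support_subset _
      (Finset.subset_biUnion_of_mem (fun p : Fin (finrank F W) × Fin (finrank F W) =>
      (c.repr ((b.baseChange k).repr (X (b.baseChange k p.1)) p.2)).support)
      (Finset.mem_univ (p, q))) _ (fun i _ => zero_smul F (c i))]
    refine Finset.sum_congr rfl fun i _ => ?_
    rw [LinearMap.smul_apply, map_smul, Finsupp.smul_apply, smul_eq_mul, Basis.baseChange_apply,
      LinearMap.baseChange_tmul, Basis.baseChange_repr_tmul, cmpE_apply, Algebra.smul_def,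
      mul_comm]
    congr 1
    -- the coordinates of the component
    have h2 : ∀ z : k ⊗[F] W, b.repr (cmp (c.coord i) z) q =
        c.coord i ((b.baseChange k).repr z q) := by
      intro z
      induction z with
      | zero => simp only [map_zero, Finsupp.zero_apply]
      | add z z' h h' => simp only [map_add, Finsupp.add_apply, h, h']
      | tmul a w =>
        rw [cmp_tmul, map_smul, Finsupp.smul_apply, Basis.baseChange_repr_tmul]
        rw [map_smul, smul_eq_mul, smul_eq_mul, mul_comm]
    rw [h2, Algebra.smul_def, mul_one]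
    rfl
  rw [h1]
  exact Submodule.sum_mem _ fun i _ => Submodule.smul_mem _ _ (Submodule.subset_span ⟨_, h _, rfl⟩)

/-- The components of a combination of extensions of the elements of a subspace are in it. -/
theorem cmp_of_ext (S : Submodule F (W →ₗ[F] W)) {X : Module.End k (k ⊗[F] W)}
    (h : X ∈ extEnd k (fun P => P ∈ S)) (lam : k →ₗ[F] F) : cmpE lam X ∈ S := by
  unfold extEnd at h
  have key : ∀ lam : k →ₗ[F] F, cmpE lam X ∈ S := by
    induction h using Submodule.span_induction with
    | mem X h =>
      obtain ⟨P, hP, rfl⟩ := h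
      intro lam
      have h1 : cmpE lam (P.baseChange k) = lam 1 • P := by
        ext w
        rw [cmpE_apply, LinearMap.baseChange_tmul, cmp_tmul]
        rfl
      rw [h1]
      exact S.smul_mem _ hP
    | zero =>
      intro lam
      have h1 : cmpE lam (0 : Module.End k (k ⊗[F] W)) = 0 := by
        ext w
        rw [cmpE_apply, LinearMap.zero_apply, map_zero]
        rfl
      rw [h1]
      exact S.zero_mem
    | add a b _ _ ha hb =>
      intro lam
      have h1 : cmpE lam (a + b) = cmpE lam a + cmpE lam b := by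
        ext w
        rw [cmpE_apply, LinearMap.add_apply, map_add]
        rfl
      rw [h1]
      exact S.add_mem (ha lam) (hb lam)
    | smul c a _ ha =>
      intro lam
      have h1 : cmpE lam (c • a) = cmpE (lam ∘ₗ LinearMap.mulLeft F c) a := by
        ext w
        rw [cmpE_apply, cmpE_apply, LinearMap.smul_apply, cmp_smul]
      rw [h1]
      exact ha _
  exact key lam

/-- The components of an endomorphism commute with a rational endomorphism. -/
theorem comm_cmp {X : Module.End k (k ⊗[F] W)} {P : Module.End F W}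
    (h : X * P.baseChange k = P.baseChange k * X) (lam : k →ₗ[F] F) :
    cmpE lam X * P = P * cmpE lam X :=
  (comm_iff P X).2 h lam

end

end Pool.Agent.W516.DR
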