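import Mathlib
import Pool.Agent.H86.CMLib.W516.DRMain
import Pool.Agent.H86.CMLib.H204R3.GP.MTDefs

/-!
# Hodge tensors and the endomorphisms that kill them
-/

set_option linter.unusedSectionVars false

namespace Pool.Agent.W516.DR

open Module TensorProduct Pool.Agent.H204R3.SP Pool.Agent.H204R3.GP

noncomputable section

section Deriv

variable {T : Type*} [AddCommGroup T] [Module ℂ T] {κ : Type*} [Fintype κ] [DecidableEq κ]

theorem hasDeriv_cs (a b : ℕ) :
    HasDerivAt (fun θ : ℝ => Real.cos θ ^ a * Real.sin θ ^ b) (if b = 1 then 1 else 0) 0 := by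
  have h1 := ((Real.hasDerivAt_cos 0).pow a).mul ((Real.hasDerivAt_sin 0).pow b)
  have h2 : (↑a * Real.cos 0 ^ (a - 1) * -Real.sin 0 * (Real.sin ^ b) 0 +
      (Real.cos ^ a) 0 * (↑b * Real.sin 0 ^ (b - 1) * Real.cos 0)) =
      (if b = 1 then (1 : ℝ) else 0) := by
    simp only [Pi.pow_apply, Real.sin_zero, Real.cos_zero]
    rcases b with _ | _ | b <;> simp
  rw [h2] at h1
  exact h1

theorem hasDeriv_exp (Ψ : MultilinearMap ℝ (fun _ : κ => T) ℝ) (u : κ → T) :
    HasDerivAt (fun θ : ℝ => Ψ (fun l => Complex.exp (θ * Complex.I) • u l))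
      (∑ j, Ψ (Function.update u j (Complex.I • u j))) 0 := by
  have h1 : ∀ θ : ℝ, Ψ (fun l => Complex.exp (θ * Complex.I) • u l) =
      ∑ s : Finset κ, Real.cos θ ^ s.card * Real.sin θ ^ (sᶜ).card *
        Ψ (s.piecewise u (fun l => Complex.I • u l)) := by
    intro θ
    have h2 : (fun l => Complex.exp (θ * Complex.I) • u l) =
        (fun l => Real.cos θ • u l) + fun l => Real.sin θ • (Complex.I • u l) := by
      funext l
      rw [Pi.add_apply, Complex.exp_mul_I, add_smul, ← Complex.ofReal_cos, ← Complex.ofReal_sin,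
        mul_smul]
      rfl
    rw [h2, MultilinearMap.map_add_univ]
    refine Finset.sum_congr rfl fun s _ => ?_
    have h3 : s.piecewise (fun l => Real.cos θ • u l) (fun l => Real.sin θ • (Complex.I • u l)) =
        fun l => (if l ∈ s then Real.cos θ else Real.sin θ) •
          (s.piecewise u (fun l => Complex.I • u l)) l := by
      funext l
      by_cases hl : l ∈ s
      · rw [Finset.piecewise_eq_of_mem _ _ _ hl, Finset.piecewise_eq_of_mem _ _ _ hl, if_pos hl]
      · rw [Finset.piecewise_eq_of_notMem _ _ _ hl, Finset.piecewise_eq_of_notMem _ _ _ hl,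
          if_neg hl]
    rw [h3, MultilinearMap.map_smul_univ, smul_eq_mul]
    congr 1
    rw [Finset.prod_ite, Finset.prod_const, Finset.prod_const, Finset.filter_mem_eq_inter,
      Finset.univ_inter]
    congr 3
    ext l
    simp
  have h2 : HasDerivAt (fun θ : ℝ => ∑ s : Finset κ, Real.cos θ ^ s.card *
      Real.sin θ ^ (sᶜ).card * Ψ (s.piecewise u (fun l => Complex.I • u l)))
      (∑ s : Finset κ, (if (sᶜ).card = 1 then 1 else 0) *
        Ψ (s.piecewise u (fun l => Complex.I • u l))) 0 :=
    HasDerivAt.fun_sum fun s _ => (hasDeriv_cs _ _).mul_const _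
  have h3 : ∑ s : Finset κ, (if (sᶜ).card = 1 then (1 : ℝ) else 0) *
        Ψ (s.piecewise u (fun l => Complex.I • u l)) =
      ∑ j, Ψ (Function.update u j (Complex.I • u j)) := by
    have h4 : ∑ s : Finset κ, (if (sᶜ).card = 1 then (1 : ℝ) else 0) *
        Ψ (s.piecewise u (fun l => Complex.I • u l)) =
        ∑ s : Finset κ, if s.card = 1 then Ψ ((sᶜ).piecewise u (fun l => Complex.I • u l)) else 0 := by
      rw [← Equiv.sum_comp (⟨compl, compl, compl_compl, compl_compl⟩ : Finset κ ≃ Finset κ)]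
      refine Finset.sum_congr rfl fun s _ => ?_
      change (if ((sᶜ)ᶜ).card = 1 then (1 : ℝ) else 0) *
        Ψ ((sᶜ).piecewise u (fun l => Complex.I • u l)) = _
      rw [compl_compl, ite_mul, one_mul, zero_mul]
    rw [h4, ← Finset.sum_filter]
    have h5 : (Finset.univ.filter fun s : Finset κ => s.card = 1) =
        (Finset.univ : Finset κ).powersetCard 1 := by
      ext s
      simp [Finset.mem_powersetCard]
    rw [h5, Finset.powersetCard_one, Finset.sum_map]
    refine Finset.sum_congr rfl fun j _ => ?_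
    congr 1
    funext l
    change (({j} : Finset κ)ᶜ).piecewise u (fun l => Complex.I • u l) l = _
    by_cases hl : l = j
    · subst hl
      rw [Function.update_self, Finset.piecewise_eq_of_notMem _ _ _ (by simp)]
    · rw [Function.update_of_ne hl, Finset.piecewise_eq_of_mem _ _ _ (by simpa using hl)]
  rw [h3] at h2
  exact h2.congr_of_eventuallyEq (Filter.Eventually.of_forall h1)

/-- The invariance under the complex numbers of absolute value one in terms of the Lie algebra. -/
theorem invariant_iff (Ψ : MultilinearMap ℝ (fun _ : κ => T) ℝ) :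
    (∀ z : ℂ, ‖z‖ = 1 → ∀ u : κ → T, Ψ (fun l => z • u l) = Ψ u) ↔
      ∀ u : κ → T, ∑ j, Ψ (Function.update u j (Complex.I • u j)) = 0 := by
  constructor
  · intro h u
    have h1 := hasDeriv_exp Ψ u
    have h2 : (fun θ : ℝ => Ψ (fun l => Complex.exp (θ * Complex.I) • u l)) = fun _ => Ψ u := by
      funext θ
      exact h _ (Complex.norm_exp_ofReal_mul_I θ) u
    rw [h2] at h1
    exact h1.unique (hasDerivAt_const 0 (Ψ u))
  · intro h z hz u
    have h1 : ∀ θ : ℝ, HasDerivAt (fun θ : ℝ => Ψ (fun l => Complex.exp (θ * Complex.I) • u l))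
        0 θ := by
      intro θ
      have h2 := hasDeriv_exp Ψ (fun l => Complex.exp (θ * Complex.I) • u l)
      rw [h] at h2
      have h3 : (fun θ' : ℝ => Ψ (fun l => Complex.exp (θ' * Complex.I) • u l)) =
          fun θ' : ℝ => (fun t : ℝ => Ψ (fun l => Complex.exp (t * Complex.I) •
            Complex.exp (θ * Complex.I) • u l)) (θ' - θ) := by
        funext θ'
        beta_reduce
        congr 1
        funext l
        rw [smul_smul, ← Complex.exp_add]
        congr 2
        push_cast
        ring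
      rw [h3]
      exact HasDerivAt.comp_sub_const θ θ (by rwa [sub_self])
    have h2 := is_const_of_deriv_eq_zero (fun θ => (h1 θ).differentiableAt)
      (fun θ => (h1 θ).deriv) (Complex.arg z) 0
    simp only [Complex.ofReal_zero, zero_mul, Complex.exp_zero, one_smul] at h2
    rw [← h2]
    congr 1
    funext l
    congr 1
    conv_lhs => rw [← Complex.norm_mul_exp_arg_mul_I z, hz]
    rw [Complex.ofReal_one, one_mul]

end Deriv

section Hodge

variable {W T : Type*} [AddCommGroup W] [Module ℚ W] [FiniteDimensional ℚ W]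
  [AddCommGroup T] [Module ℂ T] (per : W →+ T)

/-- `W` is a rational structure on the real vector space underlying `T`: a basis of `W` over the
rational numbers is mapped to a basis of `T` over the real numbers. -/
def IsRationalStructure (per : W →+ T) : Prop :=
  ∃ (b : Basis (Fin (finrank ℚ W)) ℚ W) (b' : Basis (Fin (finrank ℚ W)) ℝ T), ∀ i, b' i = per (b i)

variable {ν : Type*} [Fintype ν] [DecidableEq ν] (b : Basis ν ℚ W) (b' : Basis ν ℝ T)

/-- The identification of the real vector spaces. -/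
def eqT : T ≃ₗ[ℝ] ℝ ⊗[ℚ] W := b'.equiv (b.baseChange ℝ) (Equiv.refl _)

theorem eqT_basis (i : ν) : eqT b b' (b' i) = (1 : ℝ) ⊗ₜ[ℚ] b i := by
  unfold eqT
  rw [Basis.equiv_apply, Equiv.refl_apply, Basis.baseChange_apply]

/-- The multiplication by `i`. -/
def mulI : T →ₗ[ℝ] T where
  toFun x := Complex.I • x
  map_add' _ _ := smul_add _ _ _
  map_smul' _ _ := smul_comm _ _ _

/-- The complex structure on `ℝ ⊗ W`. -/
def Jt : Module.End ℝ (ℝ ⊗[ℚ] W) :=
  (eqT b b').toLinearMap ∘ₗ mulI ∘ₗ (eqT b b').symm.toLinearMap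

variable (hb : ∀ i, b' i = per (b i)) {κ : Type*} [Fintype κ] [DecidableEq κ]

include hb in
theorem hodge_iff (ψ : MultilinearMap ℚ (fun _ : κ => W) ℚ) :
    IsHodgeTensor per ψ ↔ Kills (Jt b b') (bcm (Ω := ℝ) b ψ) := by
  let Ψ' : MultilinearMap ℝ (fun _ : κ => T) ℝ :=
    (bcm (Ω := ℝ) b ψ).compLinearMap (fun _ => (eqT b b').toLinearMap)
  have hΨ' : ∀ u, Ψ' u = bcm (Ω := ℝ) b ψ (fun l => eqT b b' (u l)) := fun u => rfl
  have hbas : ∀ I : κ → ν, Ψ' (fun l => b' (I l)) = ((ψ (fun l => b (I l)) : ℚ) : ℝ) := by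
    intro I
    rw [hΨ']
    simp only [eqT_basis]
    rw [bcm_one]
    rfl
  have hkill : (∀ u : κ → T, ∑ j, Ψ' (Function.update u j (Complex.I • u j)) = 0) ↔
      Kills (Jt b b') (bcm (Ω := ℝ) b ψ) := by
    have h1 : ∀ u : κ → T, ∑ j, Ψ' (Function.update u j (Complex.I • u j)) =
        ∑ j, bcm (Ω := ℝ) b ψ (Function.update (fun l => eqT b b' (u l)) j
          (Jt b b' (eqT b b' (u j)))) := by
      intro u
      refine Finset.sum_congr rfl fun j _ => ?_
      rw [hΨ']
      congr 1
      funext l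
      by_cases hl : l = j
      · subst hl
        rw [Function.update_self, Function.update_self]
        unfold Jt
        rw [LinearMap.comp_apply, LinearMap.comp_apply, LinearEquiv.coe_coe, LinearEquiv.coe_coe,
          LinearEquiv.symm_apply_apply]
        rfl
      · rw [Function.update_of_ne hl, Function.update_of_ne hl]
    constructor
    · intro h z
      have h2 := h (fun l => (eqT b b').symm (z l))
      rw [h1] at h2
      simp only [LinearEquiv.apply_symm_apply] at h2
      exact h2
    · intro h u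
      rw [h1]
      exact h _
  constructor
  · rintro ⟨Ψ, hΨ, hinv⟩
    have h1 : Ψ = Ψ' := by
      refine Basis.ext_multilinear (fun _ => b') fun I => ?_
      rw [hbas, ← hΨ]
      simp only [hb]
    rw [← hkill, ← invariant_iff, ← h1]
    exact hinv
  · intro h
    refine ⟨Ψ', fun v => ?_, (invariant_iff Ψ').2 (hkill.2 h)⟩
    rw [hΨ']
    have h1 : ∀ w : W, eqT b b' (per w) = (1 : ℝ) ⊗ₜ[ℚ] w := by
      intro w
      let f : W →ₗ[ℚ] ℝ ⊗[ℚ] W := ((eqT b b').toLinearMap.toAddMonoidHom.comp per).toRatLinearMap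
      let g : W →ₗ[ℚ] ℝ ⊗[ℚ] W := TensorProduct.mk ℚ ℝ W 1
      have h2 : f = g := by
        refine b.ext fun i => ?_
        change eqT b b' (per (b i)) = (1 : ℝ) ⊗ₜ[ℚ] b i
        rw [← hb, eqT_basis]
      exact congrArg (fun F : W →ₗ[ℚ] ℝ ⊗[ℚ] W => F w) h2
    simp only [h1]
    rw [bcm_one]
    rfl

/-- A form which is killed by all endomorphisms that kill all Hodge tensors (in an even number of
variables) is a Hodge tensor. -/
theorem hodge_of_kills (hper : IsRationalStructure per) {m : ℕ}
    (φ : MultilinearMap ℚ (fun _ : Fin m × Fin 2 => W) ℚ)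
    (h : ∀ Z : Module.End ℚ W,
      (∀ (m' : ℕ) (ψ : MultilinearMap ℚ (fun _ : Fin m' × Fin 2 => W) ℚ),
        IsHodgeTensor per ψ → Kills Z ψ) → Kills Z φ) : IsHodgeTensor per φ := by
  obtain ⟨b, b', hb⟩ := hper
  rw [hodge_iff per b b' hb, kills_bcm_iff]
  intro lam
  apply h
  intro m' ψ hψ
  rw [hodge_iff per b b' hb, kills_bcm_iff] at hψ
  exact hψ lam

/-- A Hodge class of degree two as a tensor. -/
theorem one2_hodge (B : W →ₗ[ℚ] W →ₗ[ℚ] ℚ) (hB : IsHodgeBilinear per B) :
    IsHodgeTensor per (one2 B) := by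
  obtain ⟨E, hE, hinv⟩ := hB
  refine ⟨one2 E, fun v => ?_, fun z hz u => ?_⟩
  · rw [one2_apply, one2_apply, hE]
  · rw [one2_apply, one2_apply, hinv z hz]

end Hodge

end

end Pool.Agent.W516.DR
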